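import Pool.Agent.V11259.RatE

/-!
# None of the three cones is minimal with respect to bounded languages of degree `k ≥ 3`
-/

namespace Pool.Agent.Results.MP_3a8f7c_lc.AllThree

open Pool.Agent.V11259.Rat

/-- A family of languages; the alphabets are the finite sets `Fin n`. -/
def Family : Type := ∀ n : ℕ, Set (List (Fin n)) → Prop

/-- A rational cone: a family closed under images by finite transducers. -/
def IsCone (C : Family) : Prop :=
  ∀ (n m : ℕ) (t : Transducer (Fin n) (Fin m)) (L : Set (List (Fin n))),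
    C n L → C m (image t L)

/-- `T L` is the smallest rational cone containing `L`. -/
def T {n : ℕ} (L : Set (List (Fin n))) : Family :=
  fun m L' => ∀ C : Family, IsCone C → C n L → C m L'

/-- `L` is bounded of degree `k`: it is contained in `w_1^* w_2^* ⋯ w_k^*` for some words. -/
def Bounded (k : ℕ) {n : ℕ} (L : Set (List (Fin n))) : Prop :=
  ∃ w : Fin k → List (Fin n), ∀ u ∈ L, ∃ e : Fin k → ℕ,
    u = (List.ofFn fun i => (List.replicate (e i) (w i)).flatten).flatten

/-- `L` is regular: it is accepted by a deterministic finite automaton. -/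
def Regular {n : ℕ} (L : Set (List (Fin n))) : Prop :=
  ∃ (σ : Type) (_ : Fintype σ) (M : DFA (Fin n) σ), ∀ w, w ∈ L ↔ M.eval w ∈ M.accept

/-- The family `C` is minimal with respect to bounded languages of degree `k`: every bounded
language of degree `k` in `C` is regular or generates `C`. -/
def MinimalWrt (C : Family) (k : ℕ) : Prop :=
  ∀ (n : ℕ) (L : Set (List (Fin n))), C n L → Bounded k L → Regular L ∨ T L = C

theorem T_iff {n m : ℕ} (L : Set (List (Fin n))) (L' : Set (List (Fin m))) :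
    T L m L' ↔ ∃ t : Transducer (Fin n) (Fin m), L' = image t L := by
  constructor
  · intro h
    refine h (fun m L' => ∃ t : Transducer (Fin n) (Fin m), L' = image t L) ?_
      ⟨idt (Fin n), (image_idt L).symm⟩
    rintro a b t M ⟨s, rfl⟩
    exact ⟨comp s t, (image_comp s t L).symm⟩
  · rintro ⟨t, rfl⟩ C hC hL
    exact hC n m t L hL

theorem bounded_sorted {L : Set (List (Fin 3))} (hL : ∀ u ∈ L, u.Pairwise (· ≤ ·)) (r : ℕ) :
    Bounded (r + 3) L := by
  refine ⟨fun i => if (i : ℕ) = 0 then [0] else if (i : ℕ) = 1 then [1] else [2], ?_⟩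
  intro u hu
  obtain ⟨i, j, k, rfl⟩ := sorted_form (hL u hu)
  refine ⟨fun l => if (l : ℕ) = 0 then i else if (l : ℕ) = 1 then j else
    if (l : ℕ) = 2 then k else 0, ?_⟩
  rw [List.ofFn_succ, List.ofFn_succ, List.ofFn_succ, List.flatten_cons, List.flatten_cons,
    List.flatten_cons]
  have hrest : (List.ofFn fun l : Fin r => (List.replicate
      (if ((l.succ.succ.succ : Fin (r + 3)) : ℕ) = 0 then i else
        if ((l.succ.succ.succ : Fin (r + 3)) : ℕ) = 1 then j else
        if ((l.succ.succ.succ : Fin (r + 3)) : ℕ) = 2 then k else 0)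
      (if ((l.succ.succ.succ : Fin (r + 3)) : ℕ) = 0 then [(0 : Fin 3)] else
        if ((l.succ.succ.succ : Fin (r + 3)) : ℕ) = 1 then [1] else [2])).flatten).flatten =
      [] := by
    rw [List.flatten_eq_nil_iff]
    intro l hl
    obtain ⟨a, rfl⟩ := (List.mem_ofFn' _ _).1 hl
    simp
  rw [hrest]
  have h2 : 2 % (r + 3) = 2 := Nat.mod_eq_of_lt (by omega)
  have h1 : 1 % (r + 3) = 1 := Nat.mod_eq_of_lt (by omega)
  simp [h1, h2]

theorem not_min {s : Set (List (Fin 2))} {L : Set (List (Fin 3))}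
    (hL : ∀ u ∈ L, u.Pairwise (· ≤ ·)) (t0 : Transducer (Fin 2) (Fin 3)) (h0 : image t0 s = L)
    (hreg : ∀ (σ : Type) (_ : Fintype σ) (M : DFA (Fin 3) σ),
      (∀ w, w ∈ L ↔ M.eval w ∈ M.accept) → False)
    (hcore : ∀ t : Transducer (Fin 3) (Fin 2), image t L = s → False) (k : ℕ) (hk : 3 ≤ k) :
    ¬ MinimalWrt (T s) k := by
  intro hmin
  obtain ⟨r, rfl⟩ : ∃ r, k = r + 3 := ⟨k - 3, by omega⟩
  have hT : T s 3 L := (T_iff _ _).2 ⟨t0, h0.symm⟩
  rcases hmin 3 L hT (bounded_sorted hL r) with ⟨σ, hσ, M, hM⟩ | h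
  · exact hreg σ hσ M hM
  · have h1 : T L 2 s := by
      rw [h]
      exact (T_iff _ _).2 ⟨idt (Fin 2), (image_idt _).symm⟩
    obtain ⟨t, ht⟩ := (T_iff _ _).1 h1
    exact hcore t ht.symm

/-- None of the three cones `T(s_<)`, `T(s_≠)`, `T(s_>)`, where `s_< = {a^m b^n : n ≤ m}`,
`s_≠ = {a^m b^n : n ≠ m}`, `s_> = {a^m b^n : n ≥ m}`, is minimal with respect to bounded
languages of degree `k`, for any `k ≥ 3`. -/
theorem result : ∀ k : ℕ, 3 ≤ k →
    ¬ MinimalWrt (T (sR fun m n => n ≤ m)) k ∧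
    ¬ MinimalWrt (T (sR fun m n => n ≠ m)) k ∧
    ¬ MinimalWrt (T (sR fun m n => n ≥ m)) k := by
  intro k hk
  refine ⟨?_, ?_, ?_⟩
  · exact not_min (fun u hu => hu.1) _ image_lt (fun σ _ M hM => not_regular_lt M hM) core_lt k hk
  · exact not_min (s := sNe) (L := L3) (fun u hu => hu.1) U image_U
      (fun σ _ M hM => not_regular M hM) core k hk
  · exact not_min (fun u hu => hu.1) _ image_gt (fun σ _ M hM => not_regular_gt M hM) core_gt k hk

end Pool.Agent.Results.MP_3a8f7c_lc.AllThree
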